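import Pool.Agent.U671.PG.Geo

/-!
# The theorem on ovals for any instance of decidable equality
-/

set_option autoImplicit false

namespace Pool.Agent.U37.AF

open Pool.Agent.N606.ST Pool.Agent.U671.PG

theorem pascal_inst {W : Type} [Fintype W] (i : DecidableEq W) {m : ℕ} {B : Finset (Finset W)}
    {O : Finset W} (h : Plane m B) (hO : @Oval W i m B O) (hm : 100 ≤ m) (hp : ¬ IsPrimePow m) :
    m ^ 5 ≤ 100000 * {t : W × W × W | @Fails W i B O t.1 t.2.1 t.2.2}.ncard := by
  have e : i = fun a b => Classical.propDecidable (a = b) := Subsingleton.elim _ _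
  subst e
  exact pascal h hO hm hp

end Pool.Agent.U37.AF
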