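import Pool.Agent.U671.PG.Geo

/-!
# The projective plane of an abelian affine difference set
-/

set_option autoImplicit false

namespace Pool.Agent.U37.AF

open Finset Pool.Agent.N606.ST Pool.Agent.U671.PG

open scoped Classical

variable {G : Type} [CommGroup G] [Fintype G]

/-- an affine difference set of order `n` relative to `N` -/
def Affine (n : ℕ) (N : Subgroup G) (D : Finset G) : Prop :=
  Fintype.card G + 1 = n ^ 2 ∧ Nat.card N + 1 = n ∧ D.card = n ∧
    (∀ g : G, g ∉ N → ∃! t : G × G, t.1 ∈ D ∧ t.2 ∈ D ∧ t.1 / t.2 = g) ∧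
    ∀ s ∈ D, ∀ t ∈ D, s ≠ t → s / t ∉ N

/-- points and lines -/
abbrev V (N : Subgroup G) : Type := Option (G ⊕ (G ⧸ N))

/-- incidence -/
def I (N : Subgroup G) (D : Finset G) (ν : G ⧸ N) : V N → V N → Prop
  | some (Sum.inl x), some (Sum.inl y) => x * y ∈ D
  | some (Sum.inl x), some (Sum.inr c) => (x : G ⧸ N) * c = ν
  | some (Sum.inl _), none => False
  | some (Sum.inr c), some (Sum.inl x) => (x : G ⧸ N) * c = ν
  | some (Sum.inr c), some (Sum.inr c') => c * c' = ν
  | some (Sum.inr _), none => True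
  | none, some (Sum.inl _) => False
  | none, some (Sum.inr _) => True
  | none, none => False

variable {n : ℕ} {N : Subgroup G} {D : Finset G} {ν : G ⧸ N}

theorem Affine.uniq (h : Affine n N D) {a b c d : G} (ha : a ∈ D) (hb : b ∈ D)
    (hc : c ∈ D) (hd : d ∈ D) (hab : a ≠ b) (he : a / b = c / d) : a = c ∧ b = d := by
  have h1 := h.2.2.2.2 a ha b hb hab
  obtain ⟨t, -, ht⟩ := h.2.2.2.1 _ h1
  have h2 := ht (a, b) ⟨ha, hb, rfl⟩
  have h3 := ht (c, d) ⟨hc, hd, he.symm⟩
  rw [← h3] at h2
  exact ⟨(Prod.ext_iff.1 h2).1, (Prod.ext_iff.1 h2).2⟩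

theorem mk_eq {x y : G} : (x : G ⧸ N) = (y : G ⧸ N) ↔ x / y ∈ N := by
  rw [QuotientGroup.eq, ← inv_mem_iff]
  rw [mul_inv, inv_inv, div_eq_mul_inv]

theorem Affine.inj (h : Affine n N D) {a b : G} (ha : a ∈ D) (hb : b ∈ D)
    (he : (a : G ⧸ N) = (b : G ⧸ N)) : a = b := by
  by_contra hab
  exact h.2.2.2.2 a ha b hb hab (mk_eq.1 he)

theorem card_quot (h : Affine n N D) : Fintype.card (G ⧸ N) = n + 1 := by
  have h1 := N.card_eq_card_quotient_mul_card_subgroup
  have h2 := h.1
  have h3 := h.2.1
  rw [Nat.card_eq_fintype_card, Nat.card_eq_fintype_card] at h1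
  have h4 : 0 < Nat.card N := Nat.card_pos
  obtain ⟨m, rfl⟩ : ∃ m, n = m + 2 := ⟨n - 2, by omega⟩
  have h5 : Nat.card N = m + 1 := by omega
  rw [h5] at h1
  have h6 : Fintype.card (G ⧸ N) * (m + 1) = (m + 2 + 1) * (m + 1) := by
    rw [← h1]
    nlinarith
  exact Nat.eq_of_mul_eq_mul_right (by omega) h6

/-- exactly one coset is missed -/
theorem exists_nu (h : Affine n N D) : ∃ ν : G ⧸ N, ∀ c : G ⧸ N, (∃ d ∈ D, (d : G ⧸ N) = c) ↔ c ≠ ν := by
  have h1 : (D.image (QuotientGroup.mk : G → G ⧸ N)).card = n := by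
    rw [card_image_of_injOn (fun a ha b hb hab => h.inj ha hb hab), h.2.2.1]
  have h2 : (univ \ D.image (QuotientGroup.mk : G → G ⧸ N)).card = 1 := by
    rw [card_sdiff_of_subset (subset_univ _), card_univ, card_quot h, h1]
    omega
  obtain ⟨ν, hν⟩ := card_eq_one.1 h2
  refine ⟨ν, fun c => ?_⟩
  have h3 : c ∈ (univ \ D.image (QuotientGroup.mk : G → G ⧸ N)) ↔ c = ν := by rw [hν]; simp
  rw [mem_sdiff, mem_image] at h3
  constructor
  · intro h4 h5
    exact (h3.2 h5).2 h4
  · intro h4
    by_contra h5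
    exact h4 (h3.1 ⟨mem_univ _, h5⟩)

/-- the missed coset -/
def Miss (N : Subgroup G) (D : Finset G) (ν : G ⧸ N) : Prop :=
  ∀ c : G ⧸ N, (∃ d ∈ D, (d : G ⧸ N) = c) ↔ c ≠ ν

theorem card_V (h : Affine n N D) : Fintype.card (V N) = n ^ 2 + n + 1 := by
  rw [Fintype.card_option, Fintype.card_sum, card_quot h]
  have := h.1
  omega

/-- two points are on exactly one line -/
theorem join (h : Affine n N D) (hν : Miss N D ν) : ∀ P Q : V N, P ≠ Q →
    ∃! l, I N D ν P l ∧ I N D ν Q l := by
  have key1 : ∀ x y : G, x ≠ y → ∃! l, I N D ν (some (Sum.inl x)) l ∧ I N D ν (some (Sum.inl y)) l := by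
    intro x y hxy
    by_cases hN : x / y ∈ N
    · have hm : (x : G ⧸ N) = y := mk_eq.2 hN
      refine ⟨some (Sum.inr ((x : G ⧸ N)⁻¹ * ν)), ⟨?_, ?_⟩, ?_⟩
      · simp [I]
      · simp [I, ← hm]
      · rintro (_ | (g | c)) ⟨h1, h2⟩
        · exact h1.elim
        · exfalso
          simp only [I] at h1 h2
          apply h.2.2.2.2 _ h1 _ h2 (fun e => hxy (mul_right_cancel e))
          rwa [mul_div_mul_right_eq_div]
        · simp only [I] at h1
          rw [← h1]
          simp
    · obtain ⟨⟨s, t⟩, ⟨hs, ht, h2⟩, hu⟩ := h.2.2.2.1 _ hN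
      simp only at hs ht h2
      have h3 : y * (s / x) = t := by
        rw [div_eq_div_iff_mul_eq_mul] at h2
        rw [mul_div_assoc', div_eq_iff_eq_mul, mul_comm y s, h2, mul_comm]
      refine ⟨some (Sum.inl (s / x)), ⟨?_, ?_⟩, ?_⟩
      · simp only [I]
        rwa [mul_div_cancel]
      · simp only [I]
        rwa [h3]
      · rintro (_ | (g | c)) ⟨h1, h2⟩
        · exact h1.elim
        · simp only [I] at h1 h2
          have := hu (x * g, y * g) ⟨h1, h2, mul_div_mul_right_eq_div _ _ _⟩
          have h4 : x * g = s := (Prod.ext_iff.1 this).1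
          rw [← h4]
          simp
        · exfalso
          simp only [I] at h1 h2
          apply hN
          rw [← mk_eq]
          exact mul_right_cancel (h1.trans h2.symm)
  have key2 : ∀ (x : G) (c : G ⧸ N),
      ∃! l, I N D ν (some (Sum.inl x)) l ∧ I N D ν (some (Sum.inr c)) l := by
    intro x c
    by_cases hN : (x : G ⧸ N) = c
    · refine ⟨some (Sum.inr ((x : G ⧸ N)⁻¹ * ν)), ⟨?_, ?_⟩, ?_⟩
      · simp [I]
      · simp [I, ← hN]
      · rintro (_ | (g | c')) ⟨h1, h2⟩
        · exact h1.elim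
        · exfalso
          simp only [I] at h1 h2
          apply (hν ((x * g : G) : G ⧸ N)).1 ⟨_, h1, rfl⟩
          rw [QuotientGroup.mk_mul, hN, mul_comm, h2]
        · simp only [I] at h1
          rw [← h1]
          simp
    · obtain ⟨d, hd, hd2⟩ := (hν ((x : G ⧸ N) * (c⁻¹ * ν))).2 (by
        intro e
        apply hN
        rw [← mul_assoc, mul_eq_right, mul_inv_eq_one] at e
        exact e)
      refine ⟨some (Sum.inl (d / x)), ⟨?_, ?_⟩, ?_⟩
      · simp only [I]
        rwa [mul_div_cancel]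
      · simp only [I]
        rw [QuotientGroup.mk_div, hd2, mul_div_cancel_left, inv_mul_cancel_comm]
      · rintro (_ | (g | c')) ⟨h1, h2⟩
        · exact h1.elim
        · simp only [I] at h1 h2
          have : x * g = d := by
            apply h.inj h1 hd
            rw [hd2, QuotientGroup.mk_mul, ← h2, inv_mul_cancel_comm_assoc]
          rw [← this]
          simp
        · exfalso
          simp only [I] at h1 h2
          exact hN (mul_right_cancel (h1.trans h2.symm))
  have key3 : ∀ x : G, ∃! l, I N D ν (some (Sum.inl x)) l ∧ I N D ν none l := by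
    intro x
    refine ⟨some (Sum.inr ((x : G ⧸ N)⁻¹ * ν)), ⟨?_, ?_⟩, ?_⟩
    · simp [I]
    · simp [I]
    · rintro (_ | (g | c')) ⟨h1, h2⟩
      · exact h1.elim
      · exact h2.elim
      · simp only [I] at h1
        rw [← h1]
        simp
  have key4 : ∀ c : G ⧸ N, ∃! l, I N D ν (some (Sum.inr c)) l ∧ I N D ν none l := by
    intro c
    refine ⟨some (Sum.inr (c⁻¹ * ν)), ⟨?_, ?_⟩, ?_⟩
    · simp [I]
    · simp [I]
    · rintro (_ | (g | c')) ⟨h1, h2⟩
      · exact h2.elim
      · exact h2.elim
      · simp only [I] at h1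
        rw [← h1]
        simp
  have key5 : ∀ c c' : G ⧸ N, c ≠ c' →
      ∃! l, I N D ν (some (Sum.inr c)) l ∧ I N D ν (some (Sum.inr c')) l := by
    intro c c' hcc
    refine ⟨none, ⟨?_, ?_⟩, ?_⟩
    · simp [I]
    · simp [I]
    · rintro (_ | (g | c'')) ⟨h1, h2⟩
      · rfl
      · exfalso
        simp only [I] at h1 h2
        exact hcc (mul_left_cancel (h1.trans h2.symm))
      · exfalso
        simp only [I] at h1 h2
        exact hcc (mul_right_cancel (h1.trans h2.symm))
  have sw : ∀ P Q : V N, (∃! l, I N D ν P l ∧ I N D ν Q l) → ∃! l, I N D ν Q l ∧ I N D ν P l := by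
    intro P Q hPQ
    simpa only [and_comm] using hPQ
  rintro (_ | (x | c)) (_ | (y | c')) hPQ
  · exact (hPQ rfl).elim
  · exact sw _ _ (key3 y)
  · exact sw _ _ (key4 c')
  · exact key3 x
  · exact key1 x y (fun e => hPQ (by rw [e]))
  · exact key2 x c'
  · exact key4 c
  · exact sw _ _ (key2 y c)
  · exact key5 c c' (fun e => hPQ (by rw [e]))

/-- the line `l` -/
noncomputable def ln (N : Subgroup G) (D : Finset G) (ν : G ⧸ N) (l : V N) : Finset (V N) :=
  univ.filter fun P => I N D ν P l

theorem mem_ln {P l : V N} : P ∈ ln N D ν l ↔ I N D ν P l := by simp [ln]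

/-- the lines -/
noncomputable def lines (N : Subgroup G) (D : Finset G) (ν : G ⧸ N) : Finset (Finset (V N)) :=
  univ.image (ln N D ν)

theorem mem_lines {b : Finset (V N)} : b ∈ lines N D ν ↔ ∃ l, b = ln N D ν l := by
  simp [lines, eq_comm]

theorem card_fiber (h : Affine n N D) (c : G ⧸ N) :
    (univ.filter fun x : G => (x : G ⧸ N) = c).card + 1 = n := by
  rw [← h.2.1]
  congr 1
  induction c using QuotientGroup.induction_on with
  | H g =>
    rw [Nat.card_eq_fintype_card, ← card_univ]
    refine card_bij' (fun x hx => (⟨x / g, mk_eq.1 (mem_filter.1 hx).2⟩ : N))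
      (fun x _ => (x : G) * g) ?_ ?_ ?_ ?_
    · intro x _
      simp
    · intro x _
      rw [mem_filter, mk_eq]
      refine ⟨mem_univ _, ?_⟩
      rw [mul_div_cancel_right]
      exact x.2
    · intro x _
      simp
    · intro x _
      simp

theorem ln_inl (h : Affine n N D) (g : G) : ln N D ν (some (Sum.inl g)) =
    (D.image fun d => (some (Sum.inl (d / g)) : V N)) ∪ {some (Sum.inr ((g : G ⧸ N)⁻¹ * ν))} := by
  ext P
  rw [mem_ln, mem_union, mem_singleton, mem_image]
  rcases P with (_ | (x | c))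
  · simp [I]
  · simp only [I, Option.some.injEq, Sum.inl.injEq, reduceCtorEq, or_false]
    constructor
    · intro h1
      exact ⟨_, h1, by simp⟩
    · rintro ⟨d, hd, rfl⟩
      simpa using hd
  · simp only [I, Option.some.injEq, Sum.inr.injEq, reduceCtorEq, and_false, exists_false, false_or]
    rw [eq_inv_mul_iff_mul_eq]

theorem ln_inr (h : Affine n N D) (c : G ⧸ N) : ln N D ν (some (Sum.inr c)) =
    ((univ.filter fun x : G => (x : G ⧸ N) = ν * c⁻¹).image fun d => (some (Sum.inl d) : V N)) ∪
      {some (Sum.inr (ν * c⁻¹)), none} := by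
  ext P
  rw [mem_ln, mem_union, mem_insert, mem_singleton, mem_image]
  rcases P with (_ | (x | c'))
  · simp [I]
  · simp only [I, Option.some.injEq, Sum.inl.injEq, reduceCtorEq, or_false]
    rw [← eq_mul_inv_iff_mul_eq]
    simp
  · simp only [I, Option.some.injEq, Sum.inr.injEq, reduceCtorEq, and_false, exists_false, false_or,
      or_false]
    rw [← eq_mul_inv_iff_mul_eq]

theorem ln_none : ln N D ν none = univ.image fun c => (some (Sum.inr c) : V N) := by
  ext P
  rw [mem_ln, mem_image]
  rcases P with (_ | (x | c'))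
  · simp [I]
  · simp [I]
  · simp [I]

theorem card_ln (h : Affine n N D) (l : V N) : (ln N D ν l).card = n + 1 := by
  rcases l with (_ | (g | c))
  · rw [ln_none, card_image_of_injective, card_univ, card_quot h]
    intro a b hab
    simpa using hab
  · rw [ln_inl h, card_union_of_disjoint, card_image_of_injective, card_singleton, h.2.2.1]
    · intro a b hab
      simpa using hab
    · rw [disjoint_singleton_right, mem_image]
      rintro ⟨d, -, hd⟩
      simp at hd
  · rw [ln_inr h, card_union_of_disjoint, card_image_of_injective, card_pair]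
    · have := card_fiber h (ν * c⁻¹)
      omega
    · simp
    · intro a b hab
      simpa using hab
    · rw [disjoint_left]
      intro P hP
      rw [mem_image] at hP
      obtain ⟨d, -, rfl⟩ := hP
      simp

theorem plane (h : Affine n N D) (hν : Miss N D ν) : Plane n (lines N D ν) := by
  refine ⟨card_V h, ?_, ?_⟩
  · intro b hb
    obtain ⟨g, rfl⟩ := mem_lines.1 hb
    exact card_ln h g
  · intro x y hxy
    obtain ⟨l, ⟨h1, h2⟩, h3⟩ := join h hν x y hxy
    refine ⟨ln N D ν l, ⟨mem_lines.2 ⟨_, rfl⟩, mem_ln.2 h1, mem_ln.2 h2⟩, ?_⟩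
    rintro b ⟨hb, hx, hy⟩
    obtain ⟨g, rfl⟩ := mem_lines.1 hb
    rw [h3 g ⟨mem_ln.1 hx, mem_ln.1 hy⟩]

/-- the oval -/
noncomputable def ov (N : Subgroup G) (D : Finset G) : Finset (V N) :=
  insert none (D.image fun d => (some (Sum.inl d⁻¹) : V N))

theorem mem_ov_inl {x : G} : (some (Sum.inl x) : V N) ∈ ov N D ↔ x⁻¹ ∈ D := by
  simp only [ov, mem_insert, mem_image, reduceCtorEq, false_or, Option.some.injEq, Sum.inl.injEq]
  constructor
  · rintro ⟨d, hd, rfl⟩
    simpa using hd
  · intro h
    exact ⟨_, h, by simp⟩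

theorem mem_ov_inr {c : G ⧸ N} : (some (Sum.inr c) : V N) ∉ ov N D := by
  simp [ov]

theorem mem_ov_none : (none : V N) ∈ ov N D := by
  simp [ov]

/-- the second point -/
theorem second {g x : G} (hx : (some (Sum.inl x) : V N) ∈ ln N D ν (some (Sum.inl g)))
    (ho : (some (Sum.inl x) : V N) ∈ ov N D) :
    (some (Sum.inl (x⁻¹ * g⁻¹)) : V N) ∈ ln N D ν (some (Sum.inl g)) ∩ ov N D := by
  rw [mem_ln] at hx
  rw [mem_ov_inl] at ho
  rw [mem_inter, mem_ln, mem_ov_inl]
  simp only [I] at hx ⊢
  refine ⟨?_, ?_⟩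
  · rwa [mul_assoc, inv_mul_cancel, mul_one]
  · rwa [mul_inv, inv_inv, inv_inv]

theorem inter_inl (h : Affine n N D) {g x : G}
    (hx : (some (Sum.inl x) : V N) ∈ ln N D ν (some (Sum.inl g)) ∩ ov N D) :
    ln N D ν (some (Sum.inl g)) ∩ ov N D ⊆ {some (Sum.inl x), some (Sum.inl (x⁻¹ * g⁻¹))} := by
  intro P hP
  rw [mem_inter] at hP hx
  rcases P with (_ | (y | c))
  · exfalso
    have := mem_ln.1 hP.1
    exact this
  · rw [mem_insert, mem_singleton]
    by_contra hcon
    push Not at hcon
    rw [mem_ln, mem_ov_inl] at hx hP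
    simp only [I] at hx hP
    have h2 := h.uniq hx.1 hP.1 hP.2 hx.2
      (fun e => hcon.1 (by rw [mul_right_cancel e])) (by rw [mul_div_mul_right_eq_div, inv_div_inv])
    apply hcon.2
    rw [← h2.1] at hP
    have h3 : y⁻¹ = x * g := h2.1.symm
    rw [← mul_inv, ← h3, inv_inv]
  · exact (mem_ov_inr hP.2).elim

theorem oval (h : Affine n N D) : Oval n (lines N D ν) (ov N D) := by
  refine ⟨?_, ?_⟩
  · rw [ov, card_insert_of_notMem, card_image_of_injective, h.2.2.1]
    · intro a b hab
      simpa using hab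
    · simp
  · intro b hb
    obtain ⟨l, rfl⟩ := mem_lines.1 hb
    rcases l with (_ | (g | c))
    · have : ln N D ν none ∩ ov N D = ∅ := by
        apply eq_empty_of_forall_notMem
        rintro (_ | (x | c)) hx
        · exact (mem_ln.1 (mem_inter.1 hx).1)
        · exact (mem_ln.1 (mem_inter.1 hx).1)
        · exact mem_ov_inr (mem_inter.1 hx).2
      rw [this]
      simp
    · by_cases he : ln N D ν (some (Sum.inl g)) ∩ ov N D = ∅
      · rw [he]; simp
      obtain ⟨x, hx⟩ := nonempty_iff_ne_empty.2 he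
      rcases x with (_ | (x | c))
      · exact (mem_ln.1 (mem_inter.1 hx).1).elim
      · exact (card_le_card (inter_inl h hx)).trans card_le_two
      · exact (mem_ov_inr (mem_inter.1 hx).2).elim
    · by_cases he : ∃ x : G, (some (Sum.inl x) : V N) ∈ ln N D ν (some (Sum.inr c)) ∩ ov N D
      · obtain ⟨x, hx⟩ := he
        have : ln N D ν (some (Sum.inr c)) ∩ ov N D ⊆ {some (Sum.inl x), none} := by
          intro P hP
          rw [mem_inter] at hP hx
          rw [mem_insert, mem_singleton]
          rcases P with (_ | (y | c'))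
          · right; rfl
          · left
            rw [mem_ln, mem_ov_inl] at hx hP
            simp only [I] at hx hP
            have h1 : (x : G ⧸ N) = y := mul_right_cancel (hx.1.trans hP.1.symm)
            have h2 : x⁻¹ = y⁻¹ := h.inj hx.2 hP.2 (by
              rw [QuotientGroup.mk_inv, QuotientGroup.mk_inv, h1])
            rw [inv_inj.1 h2]
          · exact (mem_ov_inr hP.2).elim
        exact (card_le_card this).trans card_le_two
      · push Not at he
        have : ln N D ν (some (Sum.inr c)) ∩ ov N D ⊆ {none} := by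
          intro P hP
          rw [mem_singleton]
          rcases P with (_ | (y | c'))
          · rfl
          · exact (he y hP).elim
          · exact (mem_ov_inr (mem_inter.1 hP).2).elim
        exact (card_le_card this).trans (by simp)

end Pool.Agent.U37.AF
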