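import Pool.Agent.U37.AF.Basic
import Pool.Agent.U37.AF.Inst

/-!
# Pascal's theorem in abelian affine difference sets
-/

set_option autoImplicit false

namespace Pool.Agent.U37.AF

open Finset Pool.Agent.N606.ST Pool.Agent.U671.PG

open scoped Classical

variable {G : Type} [CommGroup G] [Fintype G] {n : ℕ} {N : Subgroup G} {D : Finset G} {ν : G ⧸ N}

/-- the relation of the involution of `x` -/
def Rel (N : Subgroup G) (D : Finset G) (x : G) : Option G → Option G → Prop
  | some a, some c => x * a * c ∈ D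
  | some a, none => x * a ∈ N
  | none, some c => x * c ∈ N
  | none, none => ∀ d ∈ D, x * d ∉ N

/-- the failures of Pascal's theorem in `D` -/
def HexFails (N : Subgroup G) (D : Finset G) (x y z : G) : Prop :=
  x⁻¹ ∉ D ∧ y⁻¹ ∉ D ∧ z⁻¹ ∉ D ∧ (∃ g, x * g ∈ D ∧ y * g ∈ D ∧ z * g ∈ D) ∧
    ∃ a : Fin 7 → Option G, (∀ i, ∀ d, a i = some d → d ∈ D) ∧ Rel N D x (a 0) (a 1) ∧
      Rel N D y (a 1) (a 2) ∧ Rel N D z (a 2) (a 3) ∧ Rel N D x (a 3) (a 4) ∧
      Rel N D y (a 4) (a 5) ∧ Rel N D z (a 5) (a 6) ∧ a 6 ≠ a 0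

/-- the parameter of a point of the oval -/
def back (N : Subgroup G) : V N → Option G
  | some (Sum.inl y) => some y⁻¹
  | _ => none

theorem back_mem {P : V N} (hP : P ∈ ov N D) : ∀ d, back N P = some d → d ∈ D := by
  rcases P with (_ | (x | c)) <;> intro d hd
  · simp [back] at hd
  · simp only [back, Option.some.injEq] at hd
    rw [← hd]
    exact mem_ov_inl.1 hP
  · simp [back] at hd

theorem back_inj {P Q : V N} (hP : P ∈ ov N D) (hQ : Q ∈ ov N D) (h : back N P = back N Q) :
    P = Q := by
  rcases P with (_ | (x | c)) <;> rcases Q with (_ | (y | c'))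
  · rfl
  · simp [back] at h
  · exact (mem_ov_inr hQ).elim
  · simp [back] at h
  · simp only [back, Option.some.injEq] at h
    rw [inv_inj.1 h]
  · exact (mem_ov_inr hQ).elim
  · exact (mem_ov_inr hP).elim
  · exact (mem_ov_inr hP).elim
  · exact (mem_ov_inr hP).elim

theorem chord (h : Affine n N D) {x : G} {A C : V N}
    (hc : Chord (lines N D ν) (ov N D) (some (Sum.inl x)) A C) :
    A ∈ ov N D ∧ C ∈ ov N D ∧ Rel N D x (back N A) (back N C) := by
  obtain ⟨b, hb, hP, he⟩ := hc
  obtain ⟨l, rfl⟩ := mem_lines.1 hb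
  have hA : A ∈ ln N D ν l ∩ ov N D := by rw [he]; simp
  have hC : C ∈ ln N D ν l ∩ ov N D := by rw [he]; simp
  have hA' := mem_inter.1 hA
  have hC' := mem_inter.1 hC
  refine ⟨hA'.2, hC'.2, ?_⟩
  rcases l with (_ | (g | c))
  · exact (mem_ln.1 hP).elim
  · rcases A with (_ | (a | a'))
    · exact (mem_ln.1 hA'.1).elim
    · rcases C with (_ | (c | c'))
      · exact (mem_ln.1 hC'.1).elim
      · simp only [back, Rel]
        have key : a⁻¹ * c⁻¹ = g := by
          have h1 := second hA'.1 hA'.2
          have h2 := second hC'.1 hC'.2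
          have mA : a⁻¹ ∈ D := mem_ov_inl.1 hA'.2
          have mC : c⁻¹ ∈ D := mem_ov_inl.1 hC'.2
          rw [he, mem_insert, mem_singleton] at h1 h2
          simp only [Option.some.injEq, Sum.inl.injEq] at h1 h2
          rcases h1 with h1 | h1
          · rcases h2 with h2 | h2
            · rw [← h2, mul_inv, inv_inv, inv_inv]
              rw [mul_comm c g, mul_assoc, mul_inv_cancel, mul_one]
            · by_cases hAC : a = c
              · rw [← hAC]
                have e2 : a⁻¹ = a * g := by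
                  rw [← mul_inv_eq_iff_eq_mul]
                  exact h1
                calc a⁻¹ * a⁻¹ = a⁻¹ * (a * g) := by rw [← e2]
                  _ = g := inv_mul_cancel_left _ _
              exfalso
              apply hAC
              have e1 : a⁻¹ / c⁻¹ = c⁻¹ / a⁻¹ := by
                have e2 : a⁻¹ = a * g := by
                  rw [← mul_inv_eq_iff_eq_mul]
                  exact h1
                have e3 : c⁻¹ = c * g := by
                  rw [← mul_inv_eq_iff_eq_mul]
                  exact h2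
                calc a⁻¹ / c⁻¹ = c / a := by rw [inv_div_inv]
                  _ = (c * g) / (a * g) := by rw [mul_div_mul_right_eq_div]
                  _ = c⁻¹ / a⁻¹ := by rw [← e2, ← e3]
              have h3 := h.uniq mA mC mC mA (fun e => hAC (inv_injective e)) e1
              exact inv_injective h3.1
          · have e2 : a⁻¹ = c * g := by
              rw [← mul_inv_eq_iff_eq_mul]
              exact h1
            rw [e2]
            rw [mul_comm c g, mul_assoc, mul_inv_cancel, mul_one]
        rw [mul_assoc, key]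
        exact mem_ln.1 hP
      · exact (mem_ov_inr hC'.2).elim
    · exact (mem_ov_inr hA'.2).elim
  · have h0 : (none : V N) ∈ ln N D ν (some (Sum.inr c)) ∩ ov N D := by
      rw [mem_inter, mem_ln]
      exact ⟨by simp [I], mem_ov_none⟩
    have hx : (x : G ⧸ N) * c = ν := mem_ln.1 hP
    have hh : ∀ a : G, (some (Sum.inl a) : V N) ∈ ln N D ν (some (Sum.inr c)) → x * a⁻¹ ∈ N := by
      intro a ha
      have h1 : (a : G ⧸ N) * c = ν := mem_ln.1 ha
      rw [← div_eq_mul_inv, ← mk_eq]
      exact mul_right_cancel (hx.trans h1.symm)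
    rcases A with (_ | (a | a'))
    · rcases C with (_ | (c' | c'))
      · simp only [back, Rel]
        intro d hd hxd
        have h1 : (some (Sum.inl d⁻¹) : V N) ∈ ln N D ν (some (Sum.inr c)) ∩ ov N D := by
          rw [mem_inter, mem_ln, mem_ov_inl, inv_inv]
          refine ⟨?_, hd⟩
          simp only [I]
          have h2 : (x : G ⧸ N) = ((d⁻¹ : G) : G ⧸ N) := by
            rw [mk_eq, div_inv_eq_mul]
            exact hxd
          rw [← h2]
          exact hx
        rw [he] at h1
        simp at h1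
      · simp only [back, Rel]
        exact hh _ hC'.1
      · exact (mem_ov_inr hC'.2).elim
    · rcases C with (_ | (c' | c'))
      · simp only [back, Rel]
        exact hh _ hA'.1
      · exfalso
        rw [he] at h0
        simp at h0
      · exact (mem_ov_inr hC'.2).elim
    · exact (mem_ov_inr hA'.2).elim

/-- the triples which are not considered -/
noncomputable def bd (N : Subgroup G) (D : Finset G) (ν : G ⧸ N) : V N → Finset (V N × V N × V N)
  | some (Sum.inl g) =>
      (({some (Sum.inr ((g : G ⧸ N)⁻¹ * ν))} : Finset (V N)) ×ˢ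
          (ln N D ν (some (Sum.inl g)) ×ˢ ln N D ν (some (Sum.inl g)))) ∪
        ((ln N D ν (some (Sum.inl g))) ×ˢ
          (({some (Sum.inr ((g : G ⧸ N)⁻¹ * ν))} : Finset (V N)) ×ˢ ln N D ν (some (Sum.inl g)))) ∪
        ((ln N D ν (some (Sum.inl g))) ×ˢ
          (ln N D ν (some (Sum.inl g)) ×ˢ ({some (Sum.inr ((g : G ⧸ N)⁻¹ * ν))} : Finset (V N))))
  | l => ln N D ν l ×ˢ (ln N D ν l ×ˢ ln N D ν l)

theorem card_bd (h : Affine n N D) :
    (univ.biUnion (bd N D ν)).card ≤ (n + 1) ^ 2 * (4 * n ^ 2 + 3 * n) := by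
  have h1 : ∀ g : G, (bd N D ν (some (Sum.inl g))).card ≤ 3 * (n + 1) ^ 2 := by
    intro g
    refine (card_union_le _ _).trans ?_
    refine (Nat.add_le_add_right (card_union_le _ _) _).trans ?_
    simp only [card_product, card_singleton, card_ln h]
    nlinarith
  have h2 : ∀ c : G ⧸ N, (bd N D ν (some (Sum.inr c))).card = (n + 1) ^ 3 := by
    intro c
    simp only [bd, card_product, card_ln h]
    ring
  have h3 : (bd N D ν none).card = (n + 1) ^ 3 := by
    simp only [bd, card_product, card_ln h]
    ring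
  refine card_biUnion_le.trans ?_
  rw [Fintype.sum_option, Fintype.sum_sum_type, h3]
  have h4 : ∑ g : G, (bd N D ν (some (Sum.inl g))).card ≤ Fintype.card G * (3 * (n + 1) ^ 2) := by
    refine (sum_le_sum fun g _ => h1 g).trans ?_
    rw [sum_const, card_univ, smul_eq_mul]
  have h5 : ∑ c : G ⧸ N, (bd N D ν (some (Sum.inr c))).card = (n + 1) * (n + 1) ^ 3 := by
    rw [sum_congr rfl fun c _ => h2 c, sum_const, card_univ, smul_eq_mul, card_quot h]
  rw [h5]
  have h6 : Fintype.card G = n ^ 2 - 1 := by have := h.1; omega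
  have h7 : 1 ≤ n ^ 2 := by have := h.1; omega
  have h8 : Fintype.card G * (3 * (n + 1) ^ 2) + 3 * (n + 1) ^ 2 = n ^ 2 * (3 * (n + 1) ^ 2) := by
    rw [← h.1]; ring
  nlinarith [sq_nonneg n]

theorem main (h : Affine n N D) (hn : 1000000 ≤ n) (hnp : ¬ IsPrimePow n) :
    n ^ 5 ≤ 200000 * {t : G × G × G | HexFails N D t.1 t.2.1 t.2.2}.ncard := by
  obtain ⟨ν, hν⟩ := exists_nu h
  have h0 : n ^ 5 ≤ 100000 *
      {t : V N × V N × V N | Fails (lines N D ν) (ov N D) t.1 t.2.1 t.2.2}.ncard := by
    exact pascal_inst _ (plane h hν) (oval h (ν := ν)) (by omega) hnp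
  have h1 := h0
  have h2 : {t : V N × V N × V N | Fails (lines N D ν) (ov N D) t.1 t.2.1 t.2.2}.ncard ≤
      {t : G × G × G | HexFails N D t.1 t.2.1 t.2.2}.ncard +
        (univ.biUnion (bd N D ν)).card := by
    rw [← Set.ncard_coe_finset]
    have h3 : {t : V N × V N × V N | Fails (lines N D ν) (ov N D) t.1 t.2.1 t.2.2} ⊆
        ((fun t : G × G × G => ((some (Sum.inl t.1), some (Sum.inl t.2.1), some (Sum.inl t.2.2)) :
          V N × V N × V N)) '' {t : G × G × G | HexFails N D t.1 t.2.1 t.2.2}) ∪
          ((univ.biUnion (bd N D ν) : Finset _) : Set (V N × V N × V N)) := by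
      rintro ⟨P, Q, R⟩ ⟨hP, hQ, hR, ⟨b, hb, hPb, hQb, hRb⟩, A, c0, c1, c2, c3, c4, c5, c6⟩
      obtain ⟨l, rfl⟩ := mem_lines.1 hb
      by_cases hbad : (P, Q, R) ∈ bd N D ν l
      · right
        rw [mem_coe, mem_biUnion]
        exact ⟨l, mem_univ _, hbad⟩
      left
      simp only at hP hQ hR hPb hQb hRb
      rcases l with (_ | (g | c))
      · exact (hbad (by simp only [bd, mem_product]; exact ⟨hPb, hQb, hRb⟩)).elim
      · have hinf : ∀ c : G ⧸ N, (some (Sum.inr c) : V N) ∈ ln N D ν (some (Sum.inl g)) →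
            (some (Sum.inr c) : V N) = some (Sum.inr ((g : G ⧸ N)⁻¹ * ν)) := by
          intro c hc
          have : (g : G ⧸ N) * c = ν := mem_ln.1 hc
          rw [← this, inv_mul_cancel_left]
        simp only [bd, mem_union, mem_product, mem_singleton] at hbad
        rcases P with (_ | (x | c))
        · exact (mem_ln.1 hPb).elim
        rotate_left
        · exact (hbad (Or.inl (Or.inl ⟨hinf _ hPb, hQb, hRb⟩))).elim
        rcases Q with (_ | (y | c))
        · exact (mem_ln.1 hQb).elim
        rotate_left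
        · exact (hbad (Or.inl (Or.inr ⟨hPb, hinf _ hQb, hRb⟩))).elim
        rcases R with (_ | (z | c))
        · exact (mem_ln.1 hRb).elim
        rotate_left
        · exact (hbad (Or.inr ⟨hPb, hQb, hinf _ hRb⟩)).elim
        refine ⟨(x, y, z), ?_, rfl⟩
        have d0 := chord h c0
        have d1 := chord h c1
        have d2 := chord h c2
        have d3 := chord h c3
        have d4 := chord h c4
        have d5 := chord h c5
        refine ⟨fun e => hP (mem_ov_inl.2 e), fun e => hQ (mem_ov_inl.2 e),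
          fun e => hR (mem_ov_inl.2 e), ⟨g, mem_ln.1 hPb, mem_ln.1 hQb, mem_ln.1 hRb⟩,
          fun i => back N (A i), ?_, d0.2.2, d1.2.2, d2.2.2, d3.2.2, d4.2.2, d5.2.2,
          fun e => c6 (back_inj d5.2.1 d0.1 e)⟩
        intro i
        fin_cases i
        · exact back_mem d0.1
        · exact back_mem d1.1
        · exact back_mem d2.1
        · exact back_mem d3.1
        · exact back_mem d4.1
        · exact back_mem d5.1
        · exact back_mem d5.2.1
      · exact (hbad (by simp only [bd, mem_product]; exact ⟨hPb, hQb, hRb⟩)).elim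
    refine (Set.ncard_le_ncard h3 (Set.toFinite _)).trans ?_
    refine (Set.ncard_union_le _ _).trans ?_
    exact Nat.add_le_add_right (Set.ncard_image_le (Set.toFinite _)) _
  have h4 := card_bd (ν := ν) h
  set H := {t : G × G × G | HexFails N D t.1 t.2.1 t.2.2}.ncard
  have h5 : n ^ 5 ≤ 100000 * (H + (n + 1) ^ 2 * (4 * n ^ 2 + 3 * n)) :=
    h1.trans (Nat.mul_le_mul_left _ (h2.trans (Nat.add_le_add_left h4 _)))
  have h6 : 200000 * ((n + 1) ^ 2 * (4 * n ^ 2 + 3 * n)) ≤ n ^ 5 := by
    obtain ⟨m, rfl⟩ : ∃ m, n = m + 1000000 := ⟨n - 1000000, by omega⟩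
    have : (m + 1000000 + 1) ^ 2 * (4 * (m + 1000000) ^ 2 + 3 * (m + 1000000)) * 200000 ≤
        (m + 1000000) ^ 5 := by
      ring_nf
      nlinarith [Nat.zero_le m, Nat.zero_le (m ^ 2), Nat.zero_le (m ^ 3), Nat.zero_le (m ^ 4),
        Nat.zero_le (m ^ 5)]
    linarith
  omega

end Pool.Agent.U37.AF
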